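import Mathlib

set_option autoImplicit false
open Set

namespace Pool.Agent.H.Brk

variable {I : Type} [LinearOrder I] [WellFoundedLT I] [Uncountable I]

omit [WellFoundedLT I] in
theorem bd (hc : ∀ a : I, (Iic a).Countable) {s : Set I} (hs : s.Countable) :
    ∃ b, ∀ a ∈ s, a < b := by
  have h : (⋃ a ∈ s, Iic a).Countable := hs.biUnion fun a _ => hc a
  by_contra hn
  push Not at hn
  apply not_countable_univ (α := I)
  refine h.mono fun b _ => ?_
  obtain ⟨a, ha, hb⟩ := hn b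
  exact mem_biUnion ha hb

def Stat (S : Set I) : Prop := ∀ (g : I → I) (c : I), ∃ d ∈ S, c < d ∧ ∀ x < d, g x < d

theorem cl (hc : ∀ a : I, (Iic a).Countable) : Stat (univ : Set I) := by
  intro g c
  have h1 : ∀ x : I, ∃ y, x < y ∧ ∀ z ≤ x, g z < y := fun x => by
    obtain ⟨b, hb⟩ := bd hc (((hc x).image g).insert x)
    exact ⟨b, hb x (mem_insert _ _), fun z hz => hb _ (mem_insert_of_mem _ ⟨z, hz, rfl⟩)⟩
  choose nx h2 h3 using h1
  let x : ℕ → I := fun n => nx^[n] c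
  have hx : ∀ n, x (n + 1) = nx (x n) := fun n => Function.iterate_succ_apply' _ _ _
  obtain ⟨b, hb⟩ := bd hc (countable_range x)
  have hne : {b | ∀ n, x n < b}.Nonempty := ⟨b, fun n => hb _ ⟨n, rfl⟩⟩
  obtain ⟨d, hd, hm⟩ := WellFounded.has_min wellFounded_lt _ hne
  refine ⟨d, trivial, hd 0, fun z hz => ?_⟩
  have : ∃ n, z ≤ x n := by
    by_contra hn
    push Not at hn
    exact hm z hn hz
  obtain ⟨n, hn⟩ := this
  exact (h3 _ z hn).trans (hx n ▸ hd (n + 1))

theorem split (hc : ∀ a : I, (Iic a).Countable) (r : I → ℕ → Bool) (hr : Function.Injective r) :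
    ∃ k, ∀ b, Stat {d | r d k = b} := by
  by_contra hn
  push Not at hn
  simp only [Stat] at hn
  push Not at hn
  choose b g c h using hn
  have h1 : ∀ x : I, ∃ y, ∀ k, g k x < y := fun x => by
    obtain ⟨y, hy⟩ := bd hc (countable_range fun k => g k x)
    exact ⟨y, fun k => hy _ ⟨k, rfl⟩⟩
  choose G hG using h1
  obtain ⟨C, hC⟩ := bd hc (countable_range c)
  have key : ∀ d, C < d → (∀ x < d, G x < d) → ∀ k, r d k = !b k := by
    intro d h1 h2 k
    by_contra h3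
    have h4 : r d k = b k := by cases h5 : r d k <;> cases h6 : b k <;> simp_all
    obtain ⟨x, hx, hy⟩ := h k d h4 ((hC _ ⟨k, rfl⟩).trans h1)
    exact absurd ((hG x k).trans (h2 x hx)) (not_lt.2 hy)
  obtain ⟨d1, -, h1, h2⟩ := cl hc G C
  obtain ⟨d2, -, h3, h4⟩ := cl hc G d1
  have : r d1 = r d2 := funext fun k => by rw [key d1 h1 h2, key d2 (h1.trans h3) h4]
  exact h3.ne (hr this)

def Ag (n : ℕ) (f g : ℕ → Bool) : Prop := ∀ k < n, f k = g k

def pre (n : ℕ) (f : ℕ → Bool) : Finset ℕ := (Finset.range n).filter fun k => f k = true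

theorem pre_iff {n : ℕ} {f g : ℕ → Bool} : pre n f = pre n g ↔ Ag n f g := by
  constructor
  · intro h k hk
    have := Finset.ext_iff.1 h k
    simp only [pre, Finset.mem_filter, Finset.mem_range, hk, true_and] at this
    cases h1 : f k <;> cases h2 : g k <;> simp_all
  · intro h
    refine Finset.filter_congr fun k hk => ?_
    rw [h k (Finset.mem_range.1 hk)]

theorem CL (hc : ∀ a : I, (Iic a).Countable) (r : I → ℕ → Bool) (hr : Function.Injective r)
    (e : I → I → ℕ) (he : ∀ b, InjOn (e b) (Iic b)) {T : Set I} (hT : Stat T)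
    {X ι : Type} [Fintype ι] {Z : Set X} (hZ : ¬ Z.Countable) (a : X → ι → I)
    (ha : ∀ i c, {y ∈ Z | a y i = c}.Countable) (Lv : X → ℕ) :
    ∃ y ∈ Z, ∃ y' ∈ Z, ∃ d ∈ T, ∀ i, a y' i < d ∧ d < a y i ∧ ∃ n, Lv y ≤ n ∧
      Ag n (r (a y' i)) (r (a y i)) ∧ r (a y' i) n ≠ r (a y i) n ∧ e (a y i) d ≤ n ∧
      ∀ z, a y' i ≤ z → z < d → n < e (a y i) z := by
  classical
  let Low : I → Set X := fun c => {y ∈ Z | ∃ i, a y i ≤ c}
  have hLow : ∀ c, (Low c).Countable := fun c => by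
    have : (⋃ i, ⋃ c' ∈ Iic c, {y ∈ Z | a y i = c'}).Countable :=
      countable_iUnion fun i => (hc c).biUnion fun c' _ => ha i c'
    refine this.mono fun y ⟨hy, i, hi⟩ => ?_
    exact mem_iUnion.2 ⟨i, mem_biUnion hi ⟨hy, rfl⟩⟩
  let A : (ι → ℕ × Finset ℕ) → Set X := fun s => {y ∈ Z | ∀ i, pre (s i).1 (r (a y i)) = (s i).2}
  have pick : ∀ {U V : Set X}, ¬ U.Countable → V.Countable → ∃ y ∈ U, y ∉ V := by
    intro U V hU hV
    by_contra hn
    push Not at hn
    exact hU (hV.mono hn)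
  obtain ⟨y0, hy0, -⟩ := pick hZ countable_empty
  have h1 : ∀ s c, ∃ y, ¬ (A s).Countable → y ∈ A s ∧ y ∉ Low c := fun s c => by
    by_cases h : (A s).Countable
    · exact ⟨y0, fun h' => absurd h h'⟩
    · obtain ⟨y, h2, h3⟩ := pick h (hLow c)
      exact ⟨y, fun _ => ⟨h2, h3⟩⟩
  choose w hw using h1
  have h2 : ∀ c, ∃ b, ∀ s i, a (w s c) i < b := fun c => by
    obtain ⟨b, hb⟩ := bd hc (countable_range fun p : (ι → ℕ × Finset ℕ) × ι => a (w p.1 c) p.2)
    exact ⟨b, fun s i => hb _ ⟨(s, i), rfl⟩⟩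
  choose g hg using h2
  have hBad : (⋃ s ∈ {s | (A s).Countable}, A s).Countable :=
    (to_countable _).biUnion fun s hs => hs
  have hI : Nonempty I := inferInstance
  obtain ⟨c0⟩ := hI
  obtain ⟨d, hd, hd0, hdg⟩ := hT g c0
  obtain ⟨y, hy, hyn⟩ := pick hZ (hBad.union (hLow d))
  have hb : ∀ i, d < a y i := fun i => by
    by_contra h
    exact hyn (Or.inr ⟨hy, i, not_lt.1 h⟩)
  let N := max (Lv y) (Finset.univ.sup fun i => e (a y i) d)
  have hA0 : ¬ (A fun i => (N, pre N (r (a y i)))).Countable := fun h =>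
    hyn (Or.inl (mem_biUnion h ⟨hy, fun i => rfl⟩))
  obtain ⟨B, hB⟩ := bd hc (countable_range (a y))
  obtain ⟨y1, ⟨hy1, hy1A⟩, hy1n⟩ := pick hA0 (hBad.union (hLow B))
  have hne : ∀ i, ∃ n, r (a y1 i) n ≠ r (a y i) n := fun i => by
    by_contra h
    push Not at h
    have := hr (funext h)
    exact hy1n (Or.inr ⟨hy1, i, this ▸ (hB _ ⟨i, rfl⟩).le⟩)
  let n : ι → ℕ := fun i => Nat.find (hne i)
  have hn1 : ∀ i, r (a y1 i) (n i) ≠ r (a y i) (n i) := fun i => Nat.find_spec (hne i)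
  have hn2 : ∀ i, Ag (n i) (r (a y1 i)) (r (a y i)) := fun i k hk => by
    have := Nat.find_min (hne i) hk
    simpa using this
  have hn3 : ∀ i, N ≤ n i := fun i => by
    by_contra h
    exact hn1 i (pre_iff.1 (hy1A i) _ (not_le.1 h))
  let s : ι → ℕ × Finset ℕ := fun i => (n i + 1, pre (n i + 1) (r (a y1 i)))
  have hs : ¬ (A s).Countable := fun h => hy1n (Or.inl (mem_biUnion h ⟨hy1, fun i => rfl⟩))
  have hfin : {z | z = c0 ∨ (z < d ∧ ∃ i, e (a y i) z ≤ n i)}.Finite := by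
    have : ∀ i, {z | z < d ∧ e (a y i) z ≤ n i}.Finite := fun i => by
      refine Finite.of_finite_image (f := e (a y i)) ((finite_Iic (n i)).subset ?_)
        ((he _).mono fun z hz => (hz.1.trans (hb i)).le)
      rintro _ ⟨z, hz, rfl⟩
      exact hz.2
    refine ((finite_iUnion this).insert c0).subset ?_
    rintro z (rfl | ⟨h, i, hi⟩)
    · exact mem_insert _ _
    · exact mem_insert_of_mem _ (mem_iUnion.2 ⟨i, h, hi⟩)
  obtain ⟨c, hc1, hc2⟩ := hfin.exists_maximal ⟨c0, Or.inl rfl⟩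
  have hcd : c < d := by
    rcases hc1 with h | h
    · exact h ▸ hd0
    · exact h.1
  obtain ⟨⟨hw1, hw2⟩, hw3⟩ := hw s c hs
  have hlo : ∀ i, c < a (w s c) i := fun i => by
    by_contra h
    exact hw3 ⟨hw1, i, not_lt.1 h⟩
  refine ⟨y, hy, w s c, hw1, d, hd, fun i => ⟨(hg c s i).trans (hdg c hcd), hb i, n i,
    (le_max_left _ _).trans (hn3 i), ?_, ?_, ?_, ?_⟩⟩
  · intro k hk
    rw [pre_iff.1 (hw2 i) k (by simp [s]; omega), hn2 i k hk]
  · rw [pre_iff.1 (hw2 i) (n i) (by simp [s])]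
    exact hn1 i
  · exact ((Finset.le_sup (f := fun i => e (a y i) d) (Finset.mem_univ i)).trans
      (le_max_right _ _)).trans (hn3 i)
  · intro z h1 h2
    by_contra h
    have h3 : c < z := (hlo i).trans_le h1
    exact absurd (hc2 (Or.inr ⟨h2, i, not_lt.1 h⟩) h3.le) (not_le.2 h3)

theorem brk (hc : ∀ a : I, (Iic a).Countable) (r : I → ℕ → Bool) (hr : Function.Injective r) :
    ∃ G : I → I → Prop, (∀ a b, G a b → a < b) ∧ ∀ (X ι : Type) [Fintype ι] (Z : Set X),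
      ¬ Z.Countable → ∀ a : X → ι → I, (∀ i c, {y ∈ Z | a y i = c}.Countable) →
      ∀ (Lv : X → ℕ) (b : Bool), ∃ y ∈ Z, ∃ y' ∈ Z, ∀ i, (∀ j, a y' i < a y j) ∧
        Ag (Lv y) (r (a y' i)) (r (a y i)) ∧ (G (a y' i) (a y i) ↔ b = true) := by
  have h1 : ∀ b : I, ∃ e : I → ℕ, InjOn e (Iic b) := fun b =>
    countable_iff_exists_injOn.1 (hc b)
  choose e he using h1
  obtain ⟨k, hk⟩ := split hc r hr
  refine ⟨fun a b => a < b ∧ ∃ n d, r d k = true ∧ a ≤ d ∧ Ag n (r a) (r b) ∧ r a n ≠ r b n ∧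
    e b d ≤ n ∧ ∀ z, a ≤ z → z < d → n < e b z, fun a b h => h.1, ?_⟩
  intro X ι _ Z hZ a ha Lv b
  obtain ⟨y, hy, y', hy', d, hd, h⟩ := CL hc r hr e he (hk b) hZ a ha Lv
  refine ⟨y, hy, y', hy', fun i => ?_⟩
  obtain ⟨h1, h2, n, h3, h4, h5, h6, h7⟩ := h i
  refine ⟨fun j => h1.trans (h j).2.1, fun k hk => h4 k (hk.trans_le h3), ?_, ?_⟩
  · rintro ⟨-, n', d', g1, g2, g3, g4, g5, g6⟩
    have hn : n' = n := by
      rcases lt_trichotomy n' n with h | h | h
      · exact absurd (h4 _ h) g4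
      · exact h
      · exact absurd (g3 _ h) h5
    subst hn
    have : d' = d := by
      rcases lt_trichotomy d' d with h | h | h
      · exact absurd (h7 _ g2 h) (not_lt.2 g5)
      · exact h
      · exact absurd (g6 _ h1.le h) (not_lt.2 h6)
    rw [← show r d k = b from hd, ← this, g1]
  · intro hb
    exact ⟨h1.trans h2, n, d, (show r d k = b from hd).trans hb, h1.le, h4, h5, h6, h7⟩

omit [LinearOrder I] [WellFoundedLT I] [Uncountable I] in
theorem dl {X ι : Type} [Fintype ι] {Z : Set X} (hZ : ¬ Z.Countable) (a : X → ι → I) :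
    ∃ Z' ⊆ Z, ¬ Z'.Countable ∧ ∀ i, (∃ c, ∀ y ∈ Z', a y i = c) ∨
      ∀ c, {y ∈ Z' | a y i = c}.Countable := by
  classical
  have : ∀ s : Finset ι, ∃ Z' ⊆ Z, ¬ Z'.Countable ∧ ∀ i ∈ s, (∃ c, ∀ y ∈ Z', a y i = c) ∨
      ∀ c, {y ∈ Z' | a y i = c}.Countable := by
    intro s
    induction s using Finset.induction_on with
    | empty => exact ⟨Z, Subset.rfl, hZ, by simp⟩
    | insert j s _ ih =>
      obtain ⟨W, h1, h2, h3⟩ := ih
      by_cases h : ∀ c, {y ∈ W | a y j = c}.Countable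
      · refine ⟨W, h1, h2, fun i hi => ?_⟩
        rcases Finset.mem_insert.1 hi with rfl | hi
        · exact Or.inr h
        · exact h3 i hi
      · push Not at h
        obtain ⟨c, h⟩ := h
        refine ⟨_, (sep_subset _ _).trans h1, h, fun i hi => ?_⟩
        rcases Finset.mem_insert.1 hi with rfl | hi
        · exact Or.inl ⟨c, fun y hy => hy.2⟩
        · rcases h3 i hi with ⟨c', h4⟩ | h4
          · exact Or.inl ⟨c', fun y hy => h4 y hy.1⟩
          · refine Or.inr fun c' => (h4 c').mono ?_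
            exact fun y hy => ⟨hy.1.1, hy.2⟩
  obtain ⟨W, h1, h2, h3⟩ := this Finset.univ
  exact ⟨W, h1, h2, fun i => h3 i (Finset.mem_univ i)⟩

end Pool.Agent.H.Brk
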